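import Pool.Agent.TH639.B3.Tors

/-!
The descent homomorphism of an elliptic curve with a rational point of order three.
-/

set_option autoImplicit false
set_option linter.all false
set_option maxHeartbeats 1000000

open WeierstrassCurve WeierstrassCurve.Affine

namespace Pool.Agent.TH958.T3

open Pool.Agent.W313.Gr (curve)
open Pool.Agent.TH639.B3 (curve_eq)

variable {F : Type} [Field F]

/-- `X ^ 3 + a X + b` is `x ^ 3 + (α x + β) ^ 2` for `X = x + c`. -/
structure TD (a b α β c : F) : Prop where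
  h1 : 3 * c = α ^ 2
  h2 : a + 3 * c ^ 2 = 2 * α * β
  h3 : b + c * a + c ^ 3 = β ^ 2

/-- An additive map with values modulo three on the nonzero elements. -/
def IsMul (ψ : F → ZMod 3) : Prop := ∀ x y : F, x ≠ 0 → y ≠ 0 → ψ (x * y) = ψ x + ψ y

section psi

variable {ψ : F → ZMod 3} (hψ : IsMul ψ)

include hψ

lemma IsMul.one : ψ 1 = 0 := by
  have h := hψ 1 1 one_ne_zero one_ne_zero
  rw [mul_one] at h
  exact left_eq_add.1 h

lemma three_eq (x : ZMod 3) : x + x + x = 0 := by revert x; decide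

lemma IsMul.cube {x : F} (hx : x ≠ 0) : ψ (x ^ 3) = 0 := by
  have e : x ^ 3 = x * x * x := by ring
  rw [e, hψ _ _ (mul_ne_zero hx hx) hx, hψ _ _ hx hx]
  exact three_eq (hψ := hψ) _

lemma IsMul.negone : ψ (-1) = 0 := by
  have h := hψ.cube (x := -1) (neg_ne_zero.2 one_ne_zero)
  have e : (-1 : F) ^ 3 = -1 := by ring
  rwa [e] at h

lemma IsMul.neg (x : F) (hx : x ≠ 0) : ψ (-x) = ψ x := by
  have e : -x = (-1) * x := by ring
  rw [e, hψ _ _ (neg_ne_zero.2 one_ne_zero) hx, hψ.negone, zero_add]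

end psi

open Classical in
/-- The value of the descent map at the point `(x, y)`. -/
noncomputable def val (ψ : F → ZMod 3) (α β x y : F) : ZMod 3 :=
  if y - (α * x + β) = 0 then -ψ (-(2 * β)) else ψ (y - (α * x + β))

lemma val_zero {ψ : F → ZMod 3} {α β x y : F} (h : y - (α * x + β) = 0) :
    val ψ α β x y = -ψ (-(2 * β)) := if_pos h

lemma val_ne {ψ : F → ZMod 3} {α β x y : F} (h : y - (α * x + β) ≠ 0) :
    val ψ α β x y = ψ (y - (α * x + β)) := if_neg h

/-- the values at `P` and `-P` -/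
theorem val_neg {ψ : F → ZMod 3} (hψ : IsMul ψ) (h2 : (2 : F) ≠ 0) {α β x y : F} (hβ : β ≠ 0)
    (hP : y ^ 2 = x ^ 3 + (α * x + β) ^ 2) : val ψ α β x (-y) = -val ψ α β x y := by
  have key : (y - (α * x + β)) * (-y - (α * x + β)) = -x ^ 3 := by linear_combination -hP
  by_cases hx : x = 0
  · subst hx
    have h3 : (y - β) * (y + β) = 0 := by linear_combination hP
    rcases mul_eq_zero.1 h3 with h4 | h4
    · have e1 : y - (α * 0 + β) = 0 := by linear_combination h4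
      have e2 : -y - (α * 0 + β) = -(2 * β) := by linear_combination -h4
      rw [val_zero e1, val_ne (by rw [e2]; exact neg_ne_zero.2 (mul_ne_zero h2 hβ)), e2, neg_neg]
    · have e1 : -y - (α * 0 + β) = 0 := by linear_combination -h4
      have e2 : y - (α * 0 + β) = -(2 * β) := by linear_combination h4
      rw [val_zero e1, val_ne (by rw [e2]; exact neg_ne_zero.2 (mul_ne_zero h2 hβ)), e2]
  · have hne : (y - (α * x + β)) * (-y - (α * x + β)) ≠ 0 := by
      rw [key]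
      exact neg_ne_zero.2 (pow_ne_zero 3 hx)
    rw [val_ne (left_ne_zero_of_mul hne), val_ne (right_ne_zero_of_mul hne), eq_neg_iff_add_eq_zero,
      add_comm, ← hψ _ _ (left_ne_zero_of_mul hne) (right_ne_zero_of_mul hne), key,
      hψ.neg _ (pow_ne_zero 3 hx), hψ.cube hx]

/-- the case of a line through the point `(0, β)` -/
theorem trip_aux {ψ : F → ZMod 3} (hψ : IsMul ψ) (h2 : (2 : F) ≠ 0) {α β x₁ x₂ x₃ l : F}
    (hβ : β ≠ 0) (hl : l - α ≠ 0) (e2 : x₁ * x₂ + x₁ * x₃ + x₂ * x₃ = 2 * α * β - 2 * l * β)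
    (h0 : x₁ = 0) :
    val ψ α β x₁ (l * x₁ + β) + val ψ α β x₂ (l * x₂ + β) + val ψ α β x₃ (l * x₃ + β) = 0 := by
  subst h0
  have e4 : x₂ * x₃ = -(2 * β) * (l - α) := by linear_combination e2
  have hne : x₂ * x₃ ≠ 0 := by
    rw [e4]
    exact mul_ne_zero (neg_ne_zero.2 (mul_ne_zero h2 hβ)) hl
  have hx2 := left_ne_zero_of_mul hne
  have hx3 := right_ne_zero_of_mul hne
  have f1 : l * 0 + β - (α * 0 + β) = 0 := by ring
  have f2 : l * x₂ + β - (α * x₂ + β) = (l - α) * x₂ := by ring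
  have f3 : l * x₃ + β - (α * x₃ + β) = (l - α) * x₃ := by ring
  have h2b : -(2 * β) ≠ 0 := neg_ne_zero.2 (mul_ne_zero h2 hβ)
  rw [val_zero f1, val_ne (by rw [f2]; exact mul_ne_zero hl hx2),
    val_ne (by rw [f3]; exact mul_ne_zero hl hx3), f2, f3]
  have e5 : ψ ((l - α) * x₂) + ψ ((l - α) * x₃) = ψ (-(2 * β)) := by
    rw [← hψ _ _ (mul_ne_zero hl hx2) (mul_ne_zero hl hx3)]
    have e6 : (l - α) * x₂ * ((l - α) * x₃) = -(2 * β) * (l - α) ^ 3 := by
      linear_combination (l - α) ^ 2 * e4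
    rw [e6, hψ _ _ h2b (pow_ne_zero 3 hl), hψ.cube hl, add_zero]
  rw [add_assoc, e5, neg_add_cancel]

/-- three points on a line -/
theorem trip {ψ : F → ZMod 3} (hψ : IsMul ψ) (h2 : (2 : F) ≠ 0) {α β x₁ x₂ x₃ l m : F}
    (hβ : β ≠ 0) (e1 : x₁ + x₂ + x₃ = l ^ 2 - α ^ 2)
    (e2 : x₁ * x₂ + x₁ * x₃ + x₂ * x₃ = 2 * α * β - 2 * l * m)
    (e3 : x₁ * x₂ * x₃ = m ^ 2 - β ^ 2) :
    val ψ α β x₁ (l * x₁ + m) + val ψ α β x₂ (l * x₂ + m) + val ψ α β x₃ (l * x₃ + m) = 0 := by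
  have key : (l * x₁ + m - (α * x₁ + β)) * (l * x₂ + m - (α * x₂ + β)) *
      (l * x₃ + m - (α * x₃ + β)) = (m - β) ^ 3 := by
    linear_combination (l - α) ^ 3 * e3 + (l - α) ^ 2 * (m - β) * e2 + (l - α) * (m - β) ^ 2 * e1
  by_cases hm : m - β = 0
  · have hm' : m = β := sub_eq_zero.1 hm
    subst hm'
    by_cases hl : l - α = 0
    · have hl' : l = α := sub_eq_zero.1 hl
      subst hl'
      rw [val_zero (sub_self _), val_zero (sub_self _), val_zero (sub_self _)]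
      exact three_eq (hψ := hψ) _
    · have e4 : x₁ * x₂ * x₃ = 0 := by rw [e3, sub_self]
      rcases mul_eq_zero.1 e4 with h | h
      · rcases mul_eq_zero.1 h with h | h
        · exact trip_aux hψ h2 hβ hl e2 h
        · have := trip_aux hψ h2 (x₂ := x₁) (x₃ := x₃) hβ hl (by linear_combination e2) h
          rw [← this]; ring
      · have := trip_aux hψ h2 (x₂ := x₁) (x₃ := x₂) hβ hl (by linear_combination e2) h
        rw [← this]; ring
  · have hne : (l * x₁ + m - (α * x₁ + β)) * (l * x₂ + m - (α * x₂ + β)) *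
      (l * x₃ + m - (α * x₃ + β)) ≠ 0 := by
      rw [key]
      exact pow_ne_zero 3 hm
    have hne' := left_ne_zero_of_mul hne
    have n1 := left_ne_zero_of_mul hne'
    have n2 := right_ne_zero_of_mul hne'
    have n3 := right_ne_zero_of_mul hne
    rw [val_ne n1, val_ne n2, val_ne n3, ← hψ _ _ n1 n2, ← hψ _ _ hne' n3, key, hψ.cube hm]

section hom

variable [DecidableEq F] {a b α β c : F}

lemma negY_eq (x y : F) : (curve a b).toAffine.negY x y = -y := by
  show -y - 0 * x - 0 = -y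
  ring

lemma addX_eq (x₁ x₂ l : F) : (curve a b).toAffine.addX x₁ x₂ l = l ^ 2 - x₁ - x₂ := by
  show l ^ 2 + 0 * l - 0 - x₁ - x₂ = _
  ring

lemma negAddY_eq (x₁ x₂ y₁ l : F) : (curve a b).toAffine.negAddY x₁ x₂ y₁ l =
    l * ((curve a b).toAffine.addX x₁ x₂ l - x₁) + y₁ := rfl

lemma addY_eq (x₁ x₂ y₁ l : F) : (curve a b).toAffine.addY x₁ x₂ y₁ l =
    -(l * ((curve a b).toAffine.addX x₁ x₂ l - x₁) + y₁) := by
  show (curve a b).toAffine.negY _ ((curve a b).toAffine.negAddY x₁ x₂ y₁ l) = _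
  rw [negY_eq, negAddY_eq]

/-- the relations between the coordinates of three points on a line -/
theorem line_rel {x₁ x₂ y₁ y₂ : F} (h₁ : (curve a b).toAffine.Equation x₁ y₁)
    (h₂ : (curve a b).toAffine.Equation x₂ y₂)
    (hxy : ¬(x₁ = x₂ ∧ y₁ = (curve a b).toAffine.negY x₂ y₂)) :
    ∃ l m x₃ : F, y₁ = l * x₁ + m ∧ y₂ = l * x₂ + m ∧
      (curve a b).toAffine.slope x₁ x₂ y₁ y₂ = l ∧
      (curve a b).toAffine.addX x₁ x₂ l = x₃ ∧
      (curve a b).toAffine.addY x₁ x₂ y₁ l = -(l * x₃ + m) ∧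
      x₁ + x₂ + x₃ = l ^ 2 ∧ x₁ * x₂ + x₁ * x₃ + x₂ * x₃ = a - 2 * l * m ∧
      x₁ * x₂ * x₃ = m ^ 2 - b := by
  set l := (curve a b).toAffine.slope x₁ x₂ y₁ y₂ with hl
  have hadd := addPolynomial_slope h₁ h₂ hxy
  rw [← hl] at hadd
  have hev : ∀ X : F, (l * (X - x₁) + y₁) ^ 2 - (X ^ 3 + a * X + b) =
      -((X - x₁) * (X - x₂) * (X - (l ^ 2 - x₁ - x₂))) := by
    intro X
    have h := congrArg (Polynomial.eval X) hadd
    rw [addX_eq] at h
    rw [addPolynomial_eq, Polynomial.eval_neg] at h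
    simp only [Cubic.toPoly, Polynomial.eval_add, Polynomial.eval_mul, Polynomial.eval_C,
      Polynomial.eval_pow, Polynomial.eval_X, Polynomial.eval_neg, Polynomial.eval_sub] at h
    have h5 : -(1 * X ^ 3 + (-l ^ 2 - 0 * l + 0) * X ^ 2 +
      (2 * x₁ * l ^ 2 + (0 * x₁ - 2 * y₁ - 0) * l + (-0 * y₁ + a)) * X +
      (-x₁ ^ 2 * l ^ 2 + (2 * x₁ * y₁ + 0 * x₁) * l - (y₁ ^ 2 + 0 * y₁ - b))) =
      -((X - x₁) * (X - x₂) * (X - (l ^ 2 - x₁ - x₂))) := h
    linear_combination h5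
  have hy2 : y₂ = l * (x₂ - x₁) + y₁ := by
    by_cases hx : x₁ = x₂
    · have hy : y₁ = y₂ := by
        have hy' : y₁ ≠ (curve a b).toAffine.negY x₂ y₂ := fun h => hxy ⟨hx, h⟩
        exact Y_eq_of_Y_ne h₁ h₂ hx hy'
      rw [hx, hy, sub_self, mul_zero, zero_add]
    · rw [hl, slope_of_X_ne hx, div_mul_eq_mul_div, eq_comm]
      have h5 : x₁ - x₂ ≠ 0 := sub_ne_zero.2 hx
      field_simp
      ring
  refine ⟨l, y₁ - l * x₁, l ^ 2 - x₁ - x₂, by ring, by rw [hy2]; ring, hl.symm ▸ rfl,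
    addX_eq _ _ _, ?_, by ring, ?_, ?_⟩
  · rw [addY_eq, addX_eq]; ring
  · linear_combination (hev 1) - (hev 0)
  · linear_combination -(hev 0)

omit [DecidableEq F] in
lemma TD.eqn (T : TD a b α β c) (x : F) :
    x ^ 3 + a * x + b = (x - c) ^ 3 + (α * (x - c) + β) ^ 2 := by
  obtain ⟨h1, h2, h3⟩ := T
  linear_combination (x - c) ^ 2 * h1 + (x - c) * h2 + h3

/-- The descent map. -/
noncomputable def Lam (ψ : F → ZMod 3) (a b α β c : F) :
    (curve a b).toAffine.Point → ZMod 3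
  | Point.zero => 0
  | Point.some x y _ => val ψ α β (x - c) y

lemma Lam_zero (ψ : F → ZMod 3) (a b α β c : F) : Lam ψ a b α β c 0 = 0 := rfl

lemma Lam_some (ψ : F → ZMod 3) (a b α β c : F) {x y : F}
    (h : (curve a b).toAffine.Nonsingular x y) :
    Lam ψ a b α β c (Point.some x y h) = val ψ α β (x - c) y := rfl

theorem Lam_add {ψ : F → ZMod 3} (hψ : IsMul ψ) (h2 : (2 : F) ≠ 0) (hβ : β ≠ 0)
    (T : TD a b α β c) (P Q : (curve a b).toAffine.Point) :
    Lam ψ a b α β c (P + Q) = Lam ψ a b α β c P + Lam ψ a b α β c Q := by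
  rcases P with _ | ⟨x₁, y₁, hn₁⟩
  · show Lam ψ a b α β c (0 + Q) = 0 + _
    rw [zero_add, zero_add]
  rcases Q with _ | ⟨x₂, y₂, hn₂⟩
  · show Lam ψ a b α β c (Point.some x₁ y₁ hn₁ + 0) = _ + 0
    rw [add_zero, add_zero]
  have q₁ := (curve_eq a b x₁ y₁).1 hn₁.1
  by_cases hxy : x₁ = x₂ ∧ y₁ = (curve a b).toAffine.negY x₂ y₂
  · rw [Point.add_of_Y_eq hxy.1 hxy.2, Lam_zero, Lam_some, Lam_some]
    obtain ⟨hx, hy⟩ := hxy
    rw [negY_eq] at hy
    subst hx
    have hy2 : y₂ = -y₁ := by rw [hy, neg_neg]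
    rw [hy2, val_neg hψ h2 hβ (by rw [q₁, T.eqn]), add_neg_cancel]
  · obtain ⟨l, m, x₃, r1, r2, r3, r4, r5, E1, E2, E3⟩ := line_rel hn₁.1 hn₂.1 hxy
    have h6 : (l * x₃ + m) ^ 2 = (x₃ - c) ^ 3 + (α * (x₃ - c) + β) ^ 2 := by
      rw [← T.eqn]
      linear_combination (-x₃ ^ 2) * E1 + x₃ * E2 - E3
    rw [Point.add_some hxy, Lam_some, Lam_some, Lam_some]
    rw [r3, r4, r5, val_neg hψ h2 hβ h6, r1, r2]
    obtain ⟨h1, h2', h3⟩ := T
    have h7 := trip hψ h2 (α := α) (x₁ := x₁ - c) (x₂ := x₂ - c) (x₃ := x₃ - c) (l := l)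
      (m := m + l * c) hβ (by linear_combination E1 - h1)
      (by linear_combination E2 - 2 * c * E1 + h2') (by linear_combination E3 - c * E2 + c ^ 2 * E1 - h3)
    have e : ∀ x : F, l * (x - c) + (m + l * c) = l * x + m := fun x => by ring
    rw [e, e, e] at h7
    rw [neg_eq_iff_add_eq_zero, add_comm]
    exact h7

/-- The descent homomorphism. -/
noncomputable def lamHom {ψ : F → ZMod 3} (hψ : IsMul ψ) (h2 : (2 : F) ≠ 0) (hβ : β ≠ 0)
    (T : TD a b α β c) : (curve a b).toAffine.Point →+ ZMod 3 where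
  toFun := Lam ψ a b α β c
  map_zero' := rfl
  map_add' := Lam_add hψ h2 hβ T

/-- the points of order three -/
theorem three_tors (h2 : (2 : F) ≠ 0) {P : (curve a b).toAffine.Point} (hP : P ≠ 0)
    (h3 : (3 : ℤ) • P = 0) : ∃ x y : F, ∃ h, P = Point.some x y h ∧
      3 * x ^ 4 + 6 * a * x ^ 2 + 12 * b * x - a ^ 2 = 0 := by
  have h2P : P + P = -P := by
    rw [show (3 : ℤ) = 1 + 1 + 1 from rfl, add_smul, add_smul, one_smul] at h3
    exact eq_neg_of_add_eq_zero_left h3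
  rcases P with _ | ⟨x, y, hns⟩
  · exact absurd rfl hP
  refine ⟨x, y, hns, rfl, ?_⟩
  have heq := (curve_eq a b x y).1 hns.1
  have hY : y ≠ (curve a b).toAffine.negY x y := by
    intro h
    rw [Point.add_self_of_Y_eq h] at h2P
    apply hP
    rw [← neg_eq_zero, ← h2P]
  rw [Point.add_self_of_Y_ne hY, Point.neg_some] at h2P
  have hx := (Point.some.inj h2P).1
  have hy0 : y ≠ 0 := by
    rintro rfl
    apply hY
    rw [negY_eq, neg_zero]
  have hsl : (curve a b).toAffine.slope x x y y = (3 * x ^ 2 + a) / (2 * y) := by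
    rw [slope_of_Y_ne rfl hY, negY_eq]
    show (3 * x ^ 2 + 2 * 0 * x + a - 0 * y) / (y - -y) = _
    have e1 : 3 * x ^ 2 + 2 * 0 * x + a - 0 * y = 3 * x ^ 2 + a := by ring
    have e2 : y - -y = 2 * y := by ring
    rw [e1, e2]
  rw [addX_eq] at hx
  set l := (curve a b).toAffine.slope x x y y with hl
  have h5 : l * (2 * y) = 3 * x ^ 2 + a := by
    rw [hsl]
    exact div_mul_cancel₀ _ (mul_ne_zero h2 hy0)
  have h6 : (l * (2 * y)) ^ 2 = 12 * x * y ^ 2 := by linear_combination 4 * y ^ 2 * hx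
  rw [h5, heq] at h6
  linear_combination -h6

end hom

end Pool.Agent.TH958.T3
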