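import Pool.Agent.TH958.T3.Up
import Pool.Agent.TH943.KD.Kd

/-!
The family `y ^ 2 = x ^ 3 + (3 x + 4 (1 - h ^ (p ^ ν + 1))) ^ 2`: main statement, and existence of `h`.
-/

set_option autoImplicit false
set_option linter.all false
set_option maxHeartbeats 1000000

open Polynomial

namespace Pool.Agent.TH958.T3

open Pool.Agent.W343.BSD
open Pool.Agent.W313.Gr (curve HasOrder rank)
open Pool.Agent.TH639.B3 (cA cB)
open Pool.Agent.W309.RK (exists_shift exists_prim_and_i charP_of_card ratfunc_ne)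

/-- existence of the polynomials -/
theorem exists_family (p : ℕ) [hp : Fact p.Prime] (f : ℕ) (hf : 1 ≤ f) :
    ∃ (k : Type) (_ : Field k) (_ : Finite k) (_ : CharP k p) (n : ℕ),
      Nat.card k = p ^ (2 * f * n) ∧ ∀ N : ℕ, ∃ h : k[X], N ≤ h.natDegree ∧ ¬ 3 ∣ h.natDegree ∧
        Irreducible h ∧ ∀ z : k, z ^ (p ^ f + 1) = 1 → Irreducible (h - C z) := by
  classical
  obtain ⟨l, hl1, hl⟩ := Nat.exists_infinite_primes (p ^ f + 3)
  have hp2 := hp.out.two_le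
  have hpf : p ≤ p ^ f := Nat.le_self_pow (by omega) p
  have hpl : p < l := by omega
  have hcop : p.Coprime l := (Nat.coprime_primes hp.out hl).2 hpl.ne
  have hn0 : 2 * f * (l - 1) ≠ 0 := by
    have : 1 ≤ l - 1 := by omega
    positivity
  refine ⟨GaloisField p (2 * f * (l - 1)), inferInstance, inferInstance, inferInstance, l - 1,
    GaloisField.card p _ hn0, ?_⟩
  haveI : Fintype (GaloisField p (2 * f * (l - 1))) := Fintype.ofFinite _
  set k := GaloisField p (2 * f * (l - 1)) with hk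
  have hcard : Fintype.card k = p ^ (2 * f * (l - 1)) := by
    rw [← Nat.card_eq_fintype_card]; exact GaloisField.card p _ hn0
  have hdvd : l ∣ Fintype.card k - 1 := by
    rw [hcard]
    haveI : Fact l.Prime := ⟨hl⟩
    have h1 : ((p ^ (2 * f)) ^ (l - 1) : ZMod l) = 1 := by
      apply ZMod.pow_card_sub_one_eq_one
      apply pow_ne_zero
      intro h
      have h2 : ((p : ℕ) : ZMod l) = 0 := h
      rw [ZMod.natCast_eq_zero_iff] at h2
      have := Nat.le_of_dvd hp.out.pos h2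
      omega
    have h3 : 1 ≤ p ^ (2 * f * (l - 1)) := Nat.one_le_pow _ _ hp.out.pos
    have h4 : ((p ^ (2 * f * (l - 1)) - 1 : ℕ) : ZMod l) = 0 := by
      rw [Nat.cast_sub h3, Nat.cast_pow, pow_mul, Nat.cast_one, h1, sub_self]
    exact (ZMod.natCast_eq_zero_iff _ _).1 h4
  have hq : (l - 1) ^ 2 < Fintype.card k := by
    rw [hcard]
    have h1 : l - 1 < p ^ (l - 1) := Nat.lt_pow_self hp.out.one_lt
    calc (l - 1) ^ 2 < (p ^ (l - 1)) ^ 2 := Nat.pow_lt_pow_left h1 two_ne_zero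
      _ = p ^ (2 * (l - 1)) := by rw [← pow_mul]; ring_nf
      _ ≤ p ^ (2 * f * (l - 1)) := by
        apply Nat.pow_le_pow_right hp.out.pos
        have : 2 * (l - 1) * 1 ≤ 2 * (l - 1) * f := Nat.mul_le_mul_left _ hf
        calc 2 * (l - 1) = 2 * (l - 1) * 1 := by ring
          _ ≤ 2 * (l - 1) * f := this
          _ = 2 * f * (l - 1) := by ring
  set Z : Finset k := insert 0 (nthRootsFinset (p ^ f + 1) (1 : k)) with hZdef
  have hZ : Z.card + 1 ≤ l := by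
    have h1 : Z.card ≤ (nthRootsFinset (p ^ f + 1) (1 : k)).card + 1 := Finset.card_insert_le _ _
    have h2 : (nthRootsFinset (p ^ f + 1) (1 : k)).card ≤ p ^ f + 1 := by
      unfold nthRootsFinset
      exact (Multiset.toFinset_card_le _).trans (card_nthRoots _ _)
    omega
  obtain ⟨c, hc⟩ := exists_shift (k := k) hl hdvd Z hZ hq
  intro N
  have hl2 : l ≠ 2 := by omega
  refine ⟨X ^ l ^ N - C c, ?_, ?_, ?_, ?_⟩
  · rw [natDegree_X_pow_sub_C]
    exact (Nat.lt_pow_self hl.one_lt).le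
  · rw [natDegree_X_pow_sub_C]
    intro h3
    have h4 := (Nat.prime_dvd_prime_iff_eq Nat.prime_three hl).1 (Nat.prime_three.dvd_of_dvd_pow h3)
    omega
  · apply X_pow_sub_C_irreducible_of_prime_pow hl hl2
    intro b hb
    exact hc 0 (Finset.mem_insert_self _ _) b (by rw [hb, add_zero])
  · intro z hz
    have e : (X ^ l ^ N - C c - C z : k[X]) = X ^ l ^ N - C (c + z) := by rw [C_add]; ring
    rw [e]
    apply X_pow_sub_C_irreducible_of_prime_pow hl hl2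
    intro b hb
    exact hc z (Finset.mem_insert_of_mem ((mem_nthRootsFinset (by omega) 1).2 hz)) b hb

section curve

variable {k : Type} [Field k]

/-- the first coefficient -/
noncomputable def eA (d : ℕ) (h : k[X]) : RatFunc k :=
  -(24 * algebraMap k[X] (RatFunc k) (h ^ d) + 3)

/-- the second coefficient -/
noncomputable def eB (d : ℕ) (h : k[X]) : RatFunc k :=
  16 * algebraMap k[X] (RatFunc k) (h ^ d) ^ 2 + 40 * algebraMap k[X] (RatFunc k) (h ^ d) - 2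

lemma am_bet (d : ℕ) (h : k[X]) : algebraMap k[X] (RatFunc k) (bet d h) =
    4 * (1 - algebraMap k[X] (RatFunc k) (h ^ d)) := by
  have e4 : (C 4 : k[X]) = 4 := rfl
  rw [bet, e4, map_mul, map_ofNat, map_sub, map_one]

lemma td_of (d : ℕ) (h : k[X]) :
    TD (eA d h) (eB d h) 3 (algebraMap k[X] (RatFunc k) (bet d h)) 3 := by
  refine ⟨by norm_num, ?_, ?_⟩
  · rw [am_bet, eA]; ring
  · rw [am_bet, eA, eB]; ring

lemma cA_eq (h3 : (3 : RatFunc k) ≠ 0) (d : ℕ) (h : k[X]) : cA 3 (bet d h) = eA d h := by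
  rw [cA, am_bet, eA, map_ofNat]
  field_simp
  ring

lemma cB_eq (h3 : (3 : RatFunc k) ≠ 0) (d : ℕ) (h : k[X]) : cB 3 (bet d h) = eB d h := by
  have h27 : (27 : RatFunc k) ≠ 0 := by
    have : (27 : RatFunc k) = 3 ^ 3 := by norm_num
    rw [this]
    exact pow_ne_zero 3 h3
  rw [cB, am_bet, eB, map_ofNat]
  field_simp
  ring

lemma disc_eq (d : ℕ) (h : k[X]) : 4 * eA d h ^ 3 + 27 * eB d h ^ 2 =
    -(6912 * algebraMap k[X] (RatFunc k) (h ^ d) *
      (1 - algebraMap k[X] (RatFunc k) (h ^ d)) ^ 3) := by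
  rw [eA, eB]
  ring

lemma disc_ne0 (h2 : (2 : RatFunc k) ≠ 0) (h3 : (3 : RatFunc k) ≠ 0) {d : ℕ} {h : k[X]}
    (hd : 0 < d) (hirr : Irreducible h) (h1 : Irreducible (h - C 1)) (hn : 0 < h.natDegree) :
    4 * eA d h ^ 3 + 27 * eB d h ^ 2 ≠ 0 := by
  rw [disc_eq]
  have h6912 : (6912 : RatFunc k) ≠ 0 := by
    have : (6912 : RatFunc k) = 2 ^ 8 * 3 ^ 3 := by norm_num
    rw [this]
    exact mul_ne_zero (pow_ne_zero _ h2) (pow_ne_zero _ h3)
  have hinj : Function.Injective (algebraMap k[X] (RatFunc k)) := RatFunc.algebraMap_injective k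
  have n1 : algebraMap k[X] (RatFunc k) (h ^ d) ≠ 0 := by
    rw [Ne, map_eq_zero_iff _ hinj]
    exact pow_ne_zero d hirr.ne_zero
  have n2 : 1 - algebraMap k[X] (RatFunc k) (h ^ d) ≠ 0 := by
    rw [← map_one (algebraMap k[X] (RatFunc k)), ← map_sub, Ne, map_eq_zero_iff _ hinj]
    intro h0
    have h5 := congrArg natDegree (sub_eq_zero.1 h0)
    rw [natDegree_one, natDegree_pow] at h5
    have := Nat.mul_pos hd hn
    omega
  exact neg_ne_zero.2 (mul_ne_zero (mul_ne_zero h6912 n1) (pow_ne_zero 3 n2))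

lemma j_ne (h2 : (2 : k) ≠ 0) (h3 : (3 : k) ≠ 0) (h2' : (2 : RatFunc k) ≠ 0)
    (h3' : (3 : RatFunc k) ≠ 0) {d : ℕ} {h : k[X]} (hd : 0 < d) (hirr : Irreducible h) (c : k) :
    6912 * eA d h ^ 3 ≠ algebraMap k (RatFunc k) c * (4 * eA d h ^ 3 + 27 * eB d h ^ 2) := by
  intro he
  rw [disc_eq] at he
  have h6912 : (6912 : RatFunc k) ≠ 0 := by
    have : (6912 : RatFunc k) = 2 ^ 8 * 3 ^ 3 := by norm_num
    rw [this]
    exact mul_ne_zero (pow_ne_zero _ h2') (pow_ne_zero _ h3')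
  have hinj : Function.Injective (algebraMap k[X] (RatFunc k)) := RatFunc.algebraMap_injective k
  have hc : algebraMap k (RatFunc k) c = algebraMap k[X] (RatFunc k) (C c) := rfl
  rw [eA, hc] at he
  have h5 : (24 * h ^ d + 3) ^ 3 = C c * (h ^ d * (1 - h ^ d) ^ 3) := by
    apply hinj
    apply mul_left_cancel₀ h6912
    simp only [map_mul, map_pow, map_sub, map_one, map_add, map_ofNat] at he ⊢
    linear_combination -he
  have h6 : h ∣ (24 * h ^ d + 3) ^ 3 := by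
    rw [h5]
    exact dvd_mul_of_dvd_right (dvd_mul_of_dvd_left (dvd_pow_self h hd.ne') _) _
  have h7 : h ∣ 24 * h ^ d + 3 := hirr.prime.dvd_of_dvd_pow h6
  have h8 : h ∣ 3 := by
    have e : (3 : k[X]) = (24 * h ^ d + 3) - 24 * h ^ d := by ring
    rw [e]
    exact dvd_sub h7 (dvd_mul_of_dvd_right (dvd_pow_self h hd.ne') _)
  have e3 : (3 : k[X]) = C 3 := rfl
  rw [e3] at h8
  exact hirr.not_isUnit (isUnit_of_dvd_unit h8 (isUnit_C.2 (isUnit_iff_ne_zero.2 h3)))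

open Classical in
/-- the main statement -/
theorem main (p ν : ℕ) (hp : p.Prime) (hp5 : 5 ≤ p) (hν : 1 ≤ ν) (hQ : p ^ ν % 3 = 1)
    (k : Type) [Field k] [Finite k] (n : ℕ) (hcard : Nat.card k = p ^ (2 * ν * n)) (h : k[X])
    (hirr : Irreducible h) (h3d : ¬ 3 ∣ h.natDegree)
    (hz : ∀ z : k, z ^ (p ^ ν + 1) = 1 → Irreducible (h - C z)) :
    (4 * eA (p ^ ν + 1) h ^ 3 + 27 * eB (p ^ ν + 1) h ^ 2 ≠ 0 ∧
      ∀ c : k, 6912 * eA (p ^ ν + 1) h ^ 3 ≠ algebraMap k (RatFunc k) c *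
        (4 * eA (p ^ ν + 1) h ^ 3 + 27 * eB (p ^ ν + 1) h ^ 2)) ∧
    (∃ P : Fin (p ^ ν) → (curve (eA (p ^ ν + 1) h) (eB (p ^ ν + 1) h)).toAffine.Point,
      LinearIndependent ℤ P) ∧
    (∀ m : ℕ, S.VanishesTo k (eA (p ^ ν + 1) h) (eB (p ^ ν + 1) h) m → m ≤ p ^ ν) ∧
    (∀ r : ℕ, HasOrder k (eA (p ^ ν + 1) h) (eB (p ^ ν + 1) h) r →
      r ≤ p ^ ν ∧ (rank (eA (p ^ ν + 1) h) (eB (p ^ ν + 1) h) ≤ r → r = p ^ ν ∧
        rank (eA (p ^ ν + 1) h) (eB (p ^ ν + 1) h) = r)) := by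
  have : Fact p.Prime := ⟨hp⟩
  have hch : CharP k p := charP_of_card hp hcard
  obtain ⟨-, ω, hω⟩ := exists_prim_and_i (p := p) (by omega) hcard
  have hpf : p ≤ p ^ ν := Nat.le_self_pow (by omega) p
  have hnd : ∀ j : ℕ, 0 < j → j < 5 → ((j : ℕ) : k) ≠ 0 := by
    intro j hj1 hj2 h0
    rw [CharP.cast_eq_zero_iff k p] at h0
    have := Nat.le_of_dvd hj1 h0
    omega
  have hk2 : ((2 : ℕ) : k) ≠ 0 := hnd 2 (by norm_num) (by norm_num)
  have hk3 : ((3 : ℕ) : k) ≠ 0 := hnd 3 (by norm_num) (by norm_num)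
  have hk2' : (2 : k) ≠ 0 := by exact_mod_cast hk2
  have hk3' : (3 : k) ≠ 0 := by exact_mod_cast hk3
  have h6 : (6 : k) ≠ 0 := by
    have : (6 : k) = 2 * 3 := by norm_num
    rw [this]
    exact mul_ne_zero hk2' hk3'
  have h2 : (2 : RatFunc k) ≠ 0 := by exact_mod_cast ratfunc_ne hk2
  have h3 : (3 : RatFunc k) ≠ 0 := by exact_mod_cast ratfunc_ne hk3
  have hn0 : 0 < h.natDegree := by
    rcases Nat.eq_zero_or_pos h.natDegree with h0 | h0
    · rw [h0] at h3d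
      exact absurd (dvd_zero 3) h3d
    · exact h0
  have hd0 : 0 < p ^ ν + 1 := by omega
  have hq : 3 ∣ Nat.card k - 1 := by
    rw [hcard]
    have e : p ^ (2 * ν * n) = (p ^ ν) ^ (2 * n) := by
      rw [← pow_mul]; ring_nf
    rw [e]
    have h7 : ((p ^ ν) ^ (2 * n)) % 3 = 1 := by
      rw [Nat.pow_mod, hQ, one_pow]
      norm_num
    omega
  have hP := points p hp5 ν (m := p ^ ν / 3) (by omega) (by omega) hω h hz hn0 h3d
    (td_of (p ^ ν + 1) h)
  have hU : ∀ m : ℕ, S.VanishesTo k (eA (p ^ ν + 1) h) (eB (p ^ ν + 1) h) m → m ≤ p ^ ν := by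
    intro m hm
    rw [← cA_eq h3, ← cB_eq h3] at hm
    have := upper h6 (d := p ^ ν + 1) (by omega) (by omega) hω hirr h3d hz hq m hm
    omega
  refine ⟨⟨disc_ne0 h2 h3 hd0 hirr (hz 1 (one_pow _)) hn0,
    fun c => j_ne hk2' hk3' h2 h3 hd0 hirr c⟩, hP, hU, ?_⟩
  intro r hr
  have hr1 : r ≤ p ^ ν := by
    apply hU
    obtain ⟨P, hP, hPr⟩ := hr
    obtain ⟨G, hG⟩ := TH943.KD.dvd_of_mult (Nat.card_pos (α := k)).ne' hPr
    exact ⟨G, by rw [hP, hG]⟩
  refine ⟨hr1, fun hle => ?_⟩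
  obtain ⟨P, hPi⟩ := hP
  have h7 : ((p ^ ν : ℕ) : Cardinal) ≤ rank (eA (p ^ ν + 1) h) (eB (p ^ ν + 1) h) := by
    have h8 := hPi.cardinal_le_rank
    rw [Cardinal.mk_fin] at h8
    exact h8
  have h9 : p ^ ν ≤ r := by exact_mod_cast h7.trans hle
  have h10 : r = p ^ ν := le_antisymm hr1 h9
  refine ⟨h10, le_antisymm hle ?_⟩
  rw [h10]
  exact h7

end curve

end Pool.Agent.TH958.T3
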