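import Pool.Agent.TH958.T3.Desc
import Pool.Agent.W309.RK.Fin

/-!
Independence from a descent, and points of order three over `k(t)`.
-/

set_option autoImplicit false
set_option linter.all false
set_option maxHeartbeats 1000000

open WeierstrassCurve WeierstrassCurve.Affine Polynomial

namespace Pool.Agent.TH958.T3

open Pool.Agent.W313.Gr (curve)
open Pool.Agent.TH639.B3 (curve_eq)

/-- independence from three-descent -/
theorem indep {A ι : Type} [AddCommGroup A] [Fintype ι] [DecidableEq ι]
    (Λ : ι → A →+ ZMod 3) (Λ0 : A →+ ZMod 3) (P : ι → A)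
    (hP : ∀ i j, Λ j (P i) = if i = j then 1 else 0) (hP0 : ∀ i, Λ0 (P i) = 0)
    (ht : ∀ x : A, (3 : ℤ) • x = 0 → Λ0 x = 0 → x = 0) : LinearIndependent ℤ P := by
  rw [Fintype.linearIndependent_iff]
  have key : ∀ N : ℕ, ∀ g : ι → ℤ, ∑ i, g i • P i = 0 → ∀ i, (3 : ℤ) ^ N ∣ g i := by
    intro N
    induction N with
    | zero =>
      intro g _ i
      rw [pow_zero]
      exact one_dvd _
    | succ N ih =>
      intro g hg
      have h1 : ∀ j, (3 : ℤ) ∣ g j := by
        intro j
        have h2 := congrArg (Λ j) hg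
        rw [map_sum, map_zero] at h2
        simp only [map_zsmul, hP] at h2
        rw [Finset.sum_eq_single j] at h2
        · rw [if_pos rfl] at h2
          have h3 : ((g j : ℤ) : ZMod 3) = 0 := by
            rw [← h2]; simp
          exact (ZMod.intCast_zmod_eq_zero_iff_dvd _ 3).1 h3 |>.imp (fun _ h => h)
        · intro i _ hi
          rw [if_neg hi, smul_zero]
        · intro h
          exact absurd (Finset.mem_univ _) h
      choose g' hg' using h1
      have h4 : (3 : ℤ) • ∑ i, g' i • P i = 0 := by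
        rw [Finset.smul_sum, ← hg]
        refine Finset.sum_congr rfl fun i _ => ?_
        rw [smul_smul, ← hg' i]
      have h5 : Λ0 (∑ i, g' i • P i) = 0 := by
        rw [map_sum]
        refine Finset.sum_eq_zero fun i _ => ?_
        rw [map_zsmul, hP0, smul_zero]
      have h6 := ih g' (ht _ h4 h5)
      intro i
      rw [hg' i, pow_succ, mul_comm]
      exact mul_dvd_mul_left 3 (h6 i)
  intro g hg i
  by_contra hne
  have h1 := key (g i).natAbs g hg i
  have h2 := Int.natAbs_dvd_natAbs.2 h1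
  have h3 := Nat.le_of_dvd (Int.natAbs_pos.2 hne) h2
  rw [Int.natAbs_pow] at h3
  have h4 : (g i).natAbs < 3 ^ (g i).natAbs := Nat.lt_pow_self (by norm_num)
  have h5 : (3 : ℤ).natAbs = 3 := rfl
  rw [h5] at h3
  omega

section tor

variable {k : Type} [Field k]

/-- the three-division polynomial has no root -/
theorem no_root (h2 : (2 : k) ≠ 0) {B : k[X]} (hB0 : 0 < B.natDegree) (hB3 : ¬ 3 ∣ B.natDegree)
    (x : RatFunc k) (hx : x ^ 3 + 12 * x ^ 2 + 12 * algebraMap k[X] (RatFunc k) B * x +
      4 * algebraMap k[X] (RatFunc k) B ^ 2 = 0) : False := by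
  have hint : IsIntegral k[X] x := by
    refine ⟨X ^ 3 + C 12 * X ^ 2 + C (12 * B) * X + C (4 * B ^ 2), ?_, ?_⟩
    · monicity!
    · simp only [eval₂_add, eval₂_mul, eval₂_pow, eval₂_X, eval₂_C, map_mul, map_pow, map_ofNat,
        eval₂_ofNat]
      exact hx
  obtain ⟨p, hp⟩ := IsIntegrallyClosed.algebraMap_eq_of_integral hint
  have hinj : Function.Injective (algebraMap k[X] (RatFunc k)) := RatFunc.algebraMap_injective k
  have hpol : p ^ 3 + 12 * p ^ 2 + 12 * B * p + 4 * B ^ 2 = 0 := by
    apply hinj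
    rw [map_zero, ← hx, ← hp]
    simp only [map_add, map_mul, map_pow, map_ofNat]
  have h4 : (4 : k) ≠ 0 := by
    have : (4 : k) = 2 * 2 := by norm_num
    rw [this]
    exact mul_ne_zero h2 h2
  have e12 : (12 : k[X]) = C 12 := rfl
  have e4 : (4 : k[X]) = C 4 := rfl
  rw [e12, e4] at hpol
  have d1 : (p ^ 3).natDegree = 3 * p.natDegree := natDegree_pow _ _
  have d2 : (C 12 * p ^ 2).natDegree ≤ 2 * p.natDegree :=
    (natDegree_C_mul_le _ _).trans (natDegree_pow _ _).le
  have d3 : (C 12 * B * p).natDegree ≤ B.natDegree + p.natDegree :=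
    natDegree_mul_le.trans (Nat.add_le_add_right (natDegree_C_mul_le _ _) _)
  have d4 : (C 4 * B ^ 2).natDegree = 2 * B.natDegree := by
    rw [natDegree_C_mul h4, natDegree_pow]
  rcases lt_trichotomy (3 * p.natDegree) (2 * B.natDegree) with h | h | h
  · have e : C 4 * B ^ 2 = -(p ^ 3 + C 12 * p ^ 2 + C 12 * B * p) := by
      linear_combination hpol
    have h5 := congrArg natDegree e
    rw [d4, natDegree_neg] at h5
    have h6 := natDegree_add_le (p ^ 3 + C 12 * p ^ 2) (C 12 * B * p)
    have h7 := natDegree_add_le (p ^ 3) (C 12 * p ^ 2)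
    rw [le_max_iff] at h6 h7
    omega
  · omega
  · have e : p ^ 3 = -(C 12 * p ^ 2 + C 12 * B * p + C 4 * B ^ 2) := by
      linear_combination hpol
    have h5 := congrArg natDegree e
    rw [d1, natDegree_neg] at h5
    have h6 := natDegree_add_le (C 12 * p ^ 2 + C 12 * B * p) (C 4 * B ^ 2)
    have h7 := natDegree_add_le (C 12 * p ^ 2) (C 12 * B * p)
    rw [le_max_iff] at h6 h7
    omega

open Classical in
/-- the points of order three -/
theorem tors_val (h2 : (2 : k) ≠ 0) (h3 : (3 : RatFunc k) ≠ 0) {B : k[X]} (hB0 : 0 < B.natDegree)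
    (hB3 : ¬ 3 ∣ B.natDegree) {a b : RatFunc k}
    (T : TD a b 3 (algebraMap k[X] (RatFunc k) B) 3) {ψ : RatFunc k → ZMod 3}
    (hv : ψ (-(2 * algebraMap k[X] (RatFunc k) B)) ≠ 0)
    (P : (curve a b).toAffine.Point) (hP : (3 : ℤ) • P = 0)
    (h0 : Lam ψ a b 3 (algebraMap k[X] (RatFunc k) B) 3 P = 0) : P = 0 := by
  have h2K : (2 : RatFunc k) ≠ 0 := by
    have := W309.RK.ratfunc_ne (k := k) (n := 2) (by exact_mod_cast h2)
    exact_mod_cast this
  by_contra hne
  obtain ⟨x, y, hns, rfl, hdiv⟩ := three_tors h2K hne hP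
  set β := algebraMap k[X] (RatFunc k) B with hβ
  obtain ⟨T1, T2, T3⟩ := T
  have heq := (curve_eq a b x y).1 hns.1
  have hβ0 : β ≠ 0 := by
    rw [hβ, Ne, map_eq_zero_iff _ (RatFunc.algebraMap_injective k)]
    rintro rfl
    simp at hB0
  have ha : a = 2 * 3 * β - 27 := by linear_combination T2
  have hb : b = β ^ 2 - 18 * β + 54 := by
    linear_combination T3 - 3 * ha
  have hfac : 3 * (x - 3) * ((x - 3) ^ 3 + 12 * (x - 3) ^ 2 + 12 * β * (x - 3) + 4 * β ^ 2) = 0 := by
    rw [ha, hb] at hdiv
    linear_combination hdiv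
  rcases mul_eq_zero.1 hfac with h | h
  · have hx : x - 3 = 0 := by
      rcases mul_eq_zero.1 h with h' | h'
      · exact absurd h' h3
      · exact h'
    have hx' : x = 3 := by linear_combination hx
    have hy : (y - β) * (y + β) = 0 := by
      rw [hx', ha, hb] at heq
      linear_combination heq
    rw [Lam_some, hx] at h0
    rcases mul_eq_zero.1 hy with h' | h'
    · rw [val_zero (by linear_combination h')] at h0
      exact hv (neg_eq_zero.1 h0)
    · have e : y - (3 * 0 + β) = -(2 * β) := by linear_combination h'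
      rw [val_ne (by rw [e]; exact neg_ne_zero.2 (mul_ne_zero h2K hβ0)), e] at h0
      exact hv h0
  · exact no_root h2 hB0 hB3 _ h

end tor

end Pool.Agent.TH958.T3
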