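import Pool.Agent.TH958.T3.Ind

/-!
The points on `y ^ 2 = x ^ 3 + (3 x + 4 (1 - h ^ (p ^ ν + 1))) ^ 2`.
-/

set_option autoImplicit false
set_option linter.all false
set_option maxHeartbeats 1000000

open WeierstrassCurve WeierstrassCurve.Affine Polynomial
open scoped Classical

namespace Pool.Agent.TH958.T3

open Pool.Agent.W313.Gr (curve)
open Pool.Agent.W309.RK (ordAt ordAt_mul ordAt_self ordAt_of_not_dvd not_dvd_shift ratfunc_ne)
open Pool.Agent.TH639.B3 (curve_eq)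

variable {k : Type} [Field k]

/-- the valuation modulo three -/
noncomputable def psi (π : k[X]) (hπ : Irreducible π) (x : RatFunc k) : ZMod 3 :=
  -((ordAt π hπ x : ℤ) : ZMod 3)

lemma psi_mul (π : k[X]) (hπ : Irreducible π) : IsMul (psi π hπ) := by
  intro x y hx hy
  unfold psi
  rw [ordAt_mul π hπ x y hx hy]
  push_cast
  ring

lemma psi_self (π : k[X]) (hπ : Irreducible π) :
    psi π hπ (algebraMap k[X] (RatFunc k) π) = 1 := by
  unfold psi
  rw [ordAt_self]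
  push_cast
  ring

lemma psi_not (π : k[X]) (hπ : Irreducible π) {f : k[X]} (hf : ¬ π ∣ f) :
    psi π hπ (algebraMap k[X] (RatFunc k) f) = 0 := by
  unfold psi
  rw [ordAt_of_not_dvd π hπ hf]
  push_cast
  ring

lemma psi_C (π : k[X]) (hπ : Irreducible π) {c : k} (hc : c ≠ 0) :
    psi π hπ (algebraMap k[X] (RatFunc k) (C c)) = 0 :=
  psi_not π hπ (fun hd => hπ.not_isUnit
    (isUnit_of_dvd_unit hd (isUnit_C.2 (isUnit_iff_ne_zero.2 hc))))

/-- the polynomial `β` -/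
noncomputable def bet (d : ℕ) (h : k[X]) : k[X] := C 4 * (1 - h ^ d)

/-- the identity behind the points -/
theorem beta_identity {p : ℕ} [Fact p.Prime] [CharP k p] {ν m : ℕ}
    (hm : p ^ ν = 3 * m + 1) {ζ : k} (hζ : ζ ^ (p ^ ν + 1) = 1) (h : k[X]) :
    bet (p ^ ν + 1) h = -(C 4 * (C ζ * h - 1) *
      (1 + ((C ζ * h - 1) ^ m) ^ 3 + (C ζ * h - 1) * ((C ζ * h - 1) ^ m) ^ 3)) := by
  set z : k[X] := C ζ * h - 1 with hz
  have h1 : z ^ (p ^ ν) = (C ζ * h) ^ (p ^ ν) - 1 := by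
    rw [hz, sub_pow_char_pow, one_pow]
  have h2 : z * (z ^ m) ^ 3 = z ^ (p ^ ν) := by rw [hm]; ring
  have h4 : (C ζ * h) ^ (p ^ ν + 1) = h ^ (p ^ ν + 1) := by
    rw [mul_pow, ← C_pow, hζ, C_1, one_mul]
  have h5 : (z ^ (p ^ ν) + 1) * (z + 1) = h ^ (p ^ ν + 1) := by
    rw [← h4, pow_succ, h1, hz]; ring
  unfold bet
  rw [← h5, ← h2]
  ring

/-- first coordinate of the points, shifted by three -/
noncomputable def px (m : ℕ) (z : k[X]) : k[X] := -(C 4 * z * z ^ m * (1 + z ^ m))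

/-- second coordinate of the points -/
noncomputable def py (m : ℕ) (z : k[X]) : k[X] := C 4 * z * ((1 + z ^ m) ^ 3 - z * (z ^ m) ^ 3)

lemma py_sub (m : ℕ) (z β : k[X])
    (hβ : β = -(C 4 * z * (1 + (z ^ m) ^ 3 + z * (z ^ m) ^ 3))) :
    py m z - (3 * px m z + β) = C 8 * z * (1 + z ^ m) ^ 3 := by
  have e4 : (C 4 : k[X]) = 4 := rfl
  have e8 : (C 8 : k[X]) = 8 := rfl
  rw [hβ, px, py, e4, e8]
  ring

lemma py_sq (m : ℕ) (z β : k[X])
    (hβ : β = -(C 4 * z * (1 + (z ^ m) ^ 3 + z * (z ^ m) ^ 3))) :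
    py m z ^ 2 = px m z ^ 3 + (3 * px m z + β) ^ 2 := by
  have e4 : (C 4 : k[X]) = 4 := rfl
  rw [hβ, px, py, e4]
  ring

lemma py_ne {m : ℕ} {z : k[X]} (h2 : (2 : k) ≠ 0) (hz : 0 < z.natDegree) (hm : 0 < m) :
    py m z ≠ 0 := by
  have h4 : (4 : k) ≠ 0 := by
    have : (4 : k) = 2 * 2 := by norm_num
    rw [this]
    exact mul_ne_zero h2 h2
  have hz0 : z ≠ 0 := by
    rintro rfl
    simp at hz
  unfold py
  refine mul_ne_zero (mul_ne_zero (C_ne_zero.2 h4) hz0) ?_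
  intro h
  have e : (1 + z ^ m) ^ 3 = z * (z ^ m) ^ 3 := sub_eq_zero.1 h
  have h5 := congrArg natDegree e
  have h6 : (1 + z ^ m : k[X]).natDegree = m * z.natDegree := by
    rw [add_comm, ← C_1, natDegree_add_C, natDegree_pow]
  rw [natDegree_pow, h6, natDegree_mul hz0 (pow_ne_zero _ (pow_ne_zero _ hz0)), natDegree_pow,
    natDegree_pow] at h5
  omega

lemma one_add_ne {m : ℕ} {z : k[X]} (hz : 0 < z.natDegree) (hm : 0 < m) :
    (1 + z ^ m : k[X]) ≠ 0 := by
  intro h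
  have h5 := congrArg natDegree h
  rw [add_comm, ← C_1, natDegree_add_C, natDegree_pow, natDegree_zero] at h5
  have : 0 < m * z.natDegree := Nat.mul_pos hm hz
  omega

theorem points (p : ℕ) [hp : Fact p.Prime] (hp5 : 5 ≤ p) (ν : ℕ) [CharP k p] {m : ℕ} (hm0 : 0 < m)
    (hm : p ^ ν = 3 * m + 1) {ω : k} (hω : IsPrimitiveRoot ω (p ^ ν + 1)) (h : k[X])
    (hirr : ∀ z : k, z ^ (p ^ ν + 1) = 1 → Irreducible (h - C z)) (h0 : 0 < h.natDegree)
    (h3d : ¬ 3 ∣ h.natDegree) {a b : RatFunc k}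
    (T : TD a b 3 (algebraMap k[X] (RatFunc k) (bet (p ^ ν + 1) h)) 3) :
    ∃ P : Fin (p ^ ν) → (curve a b).toAffine.Point, LinearIndependent ℤ P := by
  set d := p ^ ν + 1 with hd
  have hk2 : ((2 : ℕ) : k) ≠ 0 := by
    rw [Ne, CharP.cast_eq_zero_iff k p]
    intro h2; have := Nat.le_of_dvd (by norm_num) h2; omega
  have hk3 : ((3 : ℕ) : k) ≠ 0 := by
    rw [Ne, CharP.cast_eq_zero_iff k p]
    intro h2; have := Nat.le_of_dvd (by norm_num) h2; omega
  have hk2' : (2 : k) ≠ 0 := by exact_mod_cast hk2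
  have hk4 : (4 : k) ≠ 0 := by
    have : (4 : k) = 2 * 2 := by norm_num
    rw [this]
    exact mul_ne_zero hk2' hk2'
  have hk8 : (8 : k) ≠ 0 := by
    have : (8 : k) = 2 * 4 := by norm_num
    rw [this]
    exact mul_ne_zero hk2' hk4
  have h2 : (2 : RatFunc k) ≠ 0 := by exact_mod_cast ratfunc_ne hk2
  have h3 : (3 : RatFunc k) ≠ 0 := by exact_mod_cast ratfunc_ne hk3
  set am := algebraMap k[X] (RatFunc k) with ham
  have hinj : Function.Injective am := RatFunc.algebraMap_injective k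
  have am_ne : ∀ {f : k[X]}, f ≠ 0 → am f ≠ 0 := fun hf => by
    rw [Ne, map_eq_zero_iff _ hinj]; exact hf
  set B := bet d h with hB
  -- roots of unity
  have hdpos : 0 < d := by omega
  have hunit : (1 : k) ∈ nthRootsFinset d (1 : k) := (mem_nthRootsFinset hdpos 1).2 (one_pow d)
  let ι := {z : k // z ∈ (nthRootsFinset d (1 : k)).erase 1}
  have hι : ∀ z : ι, z.1 ^ d = 1 := fun z =>
    (mem_nthRootsFinset hdpos 1).1 (Finset.mem_erase.1 z.2).2
  have hι1 : ∀ z : ι, z.1 ≠ 1 := fun z => (Finset.mem_erase.1 z.2).1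
  have hz0 : ∀ z : k, z ^ d = 1 → z ≠ 0 := by
    intro z hz h0
    rw [h0, zero_pow hdpos.ne'] at hz
    exact zero_ne_one hz
  have hcard : Fintype.card ι = p ^ ν := by
    rw [Fintype.card_coe, Finset.card_erase_of_mem hunit, hω.card_nthRootsFinset]
    omega
  -- the points
  have hfac : ∀ z : k, z ^ d = 1 → (C z⁻¹ * h - 1 : k[X]) = C z⁻¹ * (h - C z) := fun z hz => by
    rw [mul_sub, ← C_mul, inv_mul_cancel₀ (hz0 z hz), C_1]
  have hdeg : ∀ z : k, z ^ d = 1 → 0 < (C z⁻¹ * h - 1 : k[X]).natDegree := fun z hz => by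
    rw [hfac z hz, natDegree_C_mul (inv_ne_zero (hz0 z hz)), natDegree_sub_C]
    exact h0
  have hbid : ∀ z : k, z ^ d = 1 → B = -(C 4 * (C z⁻¹ * h - 1) * (1 + ((C z⁻¹ * h - 1) ^ m) ^ 3 +
      (C z⁻¹ * h - 1) * ((C z⁻¹ * h - 1) ^ m) ^ 3)) := fun z hz =>
    beta_identity hm (by rw [inv_pow, hz, inv_one]) h
  have hirr1 : Irreducible (h - C 1) := hirr 1 (one_pow d)
  have hB1 : psi (h - C 1) hirr1 (-(2 * am B)) ≠ 0 := by
    have e1 := hbid 1 (one_pow d)
    rw [inv_one, C_1, one_mul] at e1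
    have hdeg1 := hdeg 1 (one_pow d)
    rw [inv_one, C_1, one_mul] at hdeg1
    set z := h - 1 with hz
    have hzC : h - C 1 = z := by rw [C_1]
    have e2 : -(2 * am B) = am (C 8) * (am z * am (1 + (z ^ m) ^ 3 + z * (z ^ m) ^ 3)) := by
      rw [← map_mul, ← map_mul, e1]
      have e4 : (C 4 : k[X]) = 4 := rfl
      have e8 : (C 8 : k[X]) = 8 := rfl
      have e3 : (2 : RatFunc k) = am 2 := by rw [map_ofNat]
      rw [e3, ← map_mul, ← map_neg, e4, e8]
      congr 1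
      ring
    have hirrz : Irreducible z := by rw [← hzC]; exact hirr1
    have hnd : ¬ (h - C 1) ∣ 1 + (z ^ m) ^ 3 + z * (z ^ m) ^ 3 := by
      rw [hzC]
      intro hdv
      have h6 : z ∣ (z ^ m) ^ 3 := dvd_pow (dvd_pow_self z hm0.ne') (by norm_num)
      have h7 : z ∣ 1 := by
        have e5 : (1 : k[X]) = (1 + (z ^ m) ^ 3 + z * (z ^ m) ^ 3) -
          ((z ^ m) ^ 3 + z * (z ^ m) ^ 3) := by ring
        rw [e5]
        exact dvd_sub hdv (dvd_add h6 (dvd_mul_of_dvd_right h6 z))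
      exact hirrz.not_isUnit (isUnit_of_dvd_one h7)
    have hne2 : (1 + (z ^ m) ^ 3 + z * (z ^ m) ^ 3 : k[X]) ≠ 0 := by
      intro h8
      rw [h8] at hnd
      exact hnd (dvd_zero _)
    rw [e2, psi_mul _ _ _ _ (am_ne (C_ne_zero.2 hk8))
      (mul_ne_zero (am_ne hirrz.ne_zero) (am_ne hne2)), psi_C _ _ hk8, zero_add,
      psi_mul _ _ _ _ (am_ne hirrz.ne_zero) (am_ne hne2), psi_not _ _ hnd, add_zero, ← hzC,
      psi_self]
    decide
  have hBne : B ≠ 0 := by
    intro h8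
    rw [h8, map_zero, mul_zero, neg_zero] at hB1
    apply hB1
    unfold psi ordAt
    rw [map_zero, WithZero.log_zero]
    simp
  have hβ0 : am B ≠ 0 := am_ne hBne
  have hBdeg : B.natDegree = d * h.natDegree := by
    rw [hB, bet, natDegree_C_mul hk4]
    have e : (1 - h ^ d : k[X]) = -(h ^ d - C 1) := by rw [C_1]; ring
    rw [e, natDegree_neg, natDegree_sub_C, natDegree_pow]
  have hB0 : 0 < B.natDegree := by rw [hBdeg]; exact Nat.mul_pos hdpos h0
  have hB3 : ¬ 3 ∣ B.natDegree := by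
    rw [hBdeg]
    intro h8
    rcases (Nat.Prime.dvd_mul Nat.prime_three).1 h8 with h9 | h9
    · rw [hd, hm] at h9
      omega
    · exact h3d h9
  have heq : ∀ z : k, z ^ d = 1 → (curve a b).toAffine.Nonsingular
      (am (px m (C z⁻¹ * h - 1)) + 3) (am (py m (C z⁻¹ * h - 1))) := fun z hz => by
    have h5 := congrArg am (py_sq m _ B (hbid z hz))
    rw [nonsingular_iff]
    constructor
    · rw [curve_eq, T.eqn, add_sub_cancel_right]
      simp only [map_pow, map_add, map_mul, map_ofNat] at h5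
      exact h5
    · right
      show _ ≠ -_ - 0 * _ - 0
      intro h8
      have h9 : (2 : RatFunc k) * am (py m (C z⁻¹ * h - 1)) = 0 := by linear_combination h8
      rcases mul_eq_zero.1 h9 with h10 | h10
      · exact h2 h10
      · exact am_ne (py_ne hk2' (hdeg z hz) hm0) h10
  let P : ι → (curve a b).toAffine.Point := fun z => Point.some _ _ (heq z.1 (hι z))
  have hval : ∀ (z w : k) (hz : z ^ d = 1) (hw : w ^ d = 1),
      Lam (psi (h - C w) (hirr w hw)) a b 3 (am B) 3 (Point.some _ _ (heq z hz)) =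
        if z = w then 1 else 0 := by
    intro z w hz hw
    rw [Lam_some, add_sub_cancel_right]
    have e1 : am (py m (C z⁻¹ * h - 1)) - (3 * am (px m (C z⁻¹ * h - 1)) + am B) =
        am (C 8 * C z⁻¹) * (am (h - C z) * am (1 + (C z⁻¹ * h - 1) ^ m) ^ 3) := by
      have h5 := congrArg am (py_sub m _ B (hbid z hz))
      rw [map_sub, map_add, map_mul, map_ofNat] at h5
      rw [h5, hfac z hz]
      simp only [map_mul, map_pow]
      ring
    have n1 : am (C 8 * C z⁻¹) ≠ 0 := by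
      rw [← C_mul]
      exact am_ne (C_ne_zero.2 (mul_ne_zero hk8 (inv_ne_zero (hz0 z hz))))
    have n2 : am (h - C z) ≠ 0 := am_ne (hirr z hz).ne_zero
    have n3 : am (1 + (C z⁻¹ * h - 1) ^ m) ≠ 0 := am_ne (one_add_ne (hdeg z hz) hm0)
    rw [val_ne (by rw [e1]; exact mul_ne_zero n1 (mul_ne_zero n2 (pow_ne_zero 3 n3))), e1,
      psi_mul _ _ _ _ n1 (mul_ne_zero n2 (pow_ne_zero 3 n3)),
      psi_mul _ _ _ _ n2 (pow_ne_zero 3 n3), (psi_mul _ _).cube n3, add_zero, ← C_mul,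
      psi_C _ _ (mul_ne_zero hk8 (inv_ne_zero (hz0 z hz))), zero_add]
    by_cases hzw : z = w
    · subst hzw
      rw [if_pos rfl, psi_self]
    · rw [if_neg hzw, psi_not _ _ (not_dvd_shift (hirr w hw) (fun hc => hzw hc.symm))]
  have hind : LinearIndependent ℤ P := by
    apply indep (fun w => lamHom (psi_mul (h - C w.1) (hirr w.1 (hι w))) h2 hβ0 T)
      (lamHom (psi_mul (h - C 1) hirr1) h2 hβ0 T) P
    · intro z w
      have h5 := hval z.1 w.1 (hι z) (hι w)
      refine h5.trans ?_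
      by_cases hzw : z = w
      · rw [if_pos hzw, if_pos (congrArg Subtype.val hzw)]
      · rw [if_neg hzw, if_neg (fun hc => hzw (Subtype.ext hc))]
    · intro z
      have h5 := hval z.1 1 (hι z) (one_pow d)
      rw [if_neg (hι1 z)] at h5
      exact h5
    · intro x hx h0x
      exact tors_val hk2' h3 hB0 hB3 T hB1 x hx h0x
  exact ⟨P ∘ (Fintype.equivFinOfCardEq hcard).symm,
    hind.comp _ (Equiv.injective _)⟩

end Pool.Agent.TH958.T3
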