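import Pool.Agent.TH958.T3.Pts
import Pool.Agent.TH639.B3.Fam

/-!
The order of vanishing for `y ^ 2 = x ^ 3 + (3 x + 4 (1 - h ^ (p ^ ν + 1))) ^ 2`.
-/

set_option autoImplicit false
set_option linter.all false
set_option maxHeartbeats 1000000

open Polynomial

namespace Pool.Agent.TH958.T3

open Pool.Agent.W343.BSD
open Pool.Agent.TH943.LG (primes mem_primes)
open Pool.Agent.TH639.B3 (cA cB finB infB bound_fam)

variable {k : Type} [Field k]

lemma cop3 {n : ℕ} (h : ¬ 3 ∣ n) : 3 ^ padicValNat 3 n = 1 := by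
  rw [padicValNat.eq_zero_of_not_dvd h, pow_zero]

lemma gam_eq (d : ℕ) (h : k[X]) : 4 * (3 : k[X]) ^ 3 - 27 * bet d h = C 108 * h ^ d := by
  have e4 : (C 4 : k[X]) = 4 := rfl
  have e8 : (C 108 : k[X]) = 108 := rfl
  rw [bet, e4, e8]
  ring

theorem upper [Finite k] (h6 : (6 : k) ≠ 0) {d : ℕ} (hd2 : 2 ≤ d) (hd3 : ¬ 3 ∣ d) {ω : k}
    (hω : IsPrimitiveRoot ω d) {h : k[X]} (hirr : Irreducible h) (h3d : ¬ 3 ∣ h.natDegree)
    (hz : ∀ z : k, z ^ d = 1 → Irreducible (h - C z)) (hq : 3 ∣ Nat.card k - 1) (m : ℕ)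
    (hm : S.VanishesTo k (cA 3 (bet d h)) (cB 3 (bet d h)) m) : m ≤ d - 1 := by
  classical
  have hk2 : (2 : k) ≠ 0 := by
    intro h2
    apply h6
    have : (6 : k) = 2 * 3 := by norm_num
    rw [this, h2, zero_mul]
  have hk3 : (3 : k) ≠ 0 := by
    intro h2
    apply h6
    have : (6 : k) = 2 * 3 := by norm_num
    rw [this, h2, mul_zero]
  have hk4 : (4 : k) ≠ 0 := by
    have : (4 : k) = 2 * 2 := by norm_num
    rw [this]
    exact mul_ne_zero hk2 hk2
  have hk108 : (108 : k) ≠ 0 := by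
    have : (108 : k) = 4 * 3 ^ 3 := by norm_num
    rw [this]
    exact mul_ne_zero hk4 (pow_ne_zero 3 hk3)
  have hd0 : 0 < d := by omega
  have hn0 : 0 < h.natDegree := by
    rcases Nat.eq_zero_or_pos h.natDegree with h0 | h0
    · rw [h0] at h3d
      exact absurd (dvd_zero 3) h3d
    · exact h0
  have hBdeg : (bet d h).natDegree = d * h.natDegree := by
    rw [bet, natDegree_C_mul hk4]
    have e : (1 - h ^ d : k[X]) = -(h ^ d - C 1) := by rw [C_1]; ring
    rw [e, natDegree_neg, natDegree_sub_C, natDegree_pow]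
  have hB0 : 0 < (bet d h).natDegree := by rw [hBdeg]; exact Nat.mul_pos hd0 hn0
  have hBne : bet d h ≠ 0 := by
    intro h0
    rw [h0] at hB0
    simp at hB0
  have hγ := gam_eq d h
  have hγne : 4 * (3 : k[X]) ^ 3 - 27 * bet d h ≠ 0 := by
    rw [hγ]
    exact mul_ne_zero (C_ne_zero.2 hk108) (pow_ne_zero d hirr.ne_zero)
  have hprod : h ^ d - 1 = ∏ z ∈ nthRootsFinset d (1 : k), (h - C z) := by
    have h1 := congrArg (fun P : k[X] => P.comp h) (X_pow_sub_one_eq_prod hd0 hω)
    simp only [sub_comp, pow_comp, X_comp, one_comp, prod_comp, C_comp] at h1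
    exact h1
  have e3 : (3 : k[X]) = C 3 := rfl
  have hdeg3 : (3 : k[X]).natDegree = 0 := by rw [e3, natDegree_C]
  have hb := bound_fam h6 hBne hγne hm
  rw [if_pos hq] at hb
  have hinf : infB (3 : k[X]) (bet d h) ≤ 2 := by
    unfold infB
    rw [hdeg3, mul_zero, if_neg (Nat.not_lt_zero _), if_neg]
    · split_ifs <;> omega
    · rw [hBdeg]
      intro h8
      rcases (Nat.Prime.dvd_mul Nat.prime_three).1 h8 with h9 | h9
      · exact hd3 h9
      · exact h3d h9
  have hp1 : ∀ P ∈ primes (bet d h), ∃ z ∈ nthRootsFinset d (1 : k), P = normalize (h - C z) := by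
    intro P hP
    obtain ⟨hmon, hPi, hdv⟩ := (mem_primes hBne).1 hP
    rw [bet] at hdv
    have hnu : ¬ P ∣ C 4 := fun hd' => hPi.not_isUnit
      (isUnit_of_dvd_unit hd' (isUnit_C.2 (isUnit_iff_ne_zero.2 hk4)))
    rcases hPi.prime.dvd_or_dvd hdv with h1 | h1
    · exact absurd h1 hnu
    · rw [← neg_sub, dvd_neg, hprod, hPi.prime.dvd_finset_prod_iff] at h1
      obtain ⟨z, hz1, hz2⟩ := h1
      refine ⟨z, hz1, ?_⟩
      have hass : Associated P (h - C z) :=
        hPi.associated_of_dvd (hz z ((mem_nthRootsFinset hd0 1).1 hz1)) hz2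
      rw [← hmon.normalize_eq_self]
      exact (normalize_eq_normalize_iff_associated).2 hass
  have hdegP : ∀ z : k, (normalize (h - C z)).natDegree = h.natDegree := fun z => by
    rw [natDegree_eq_of_degree_eq (degree_normalize), natDegree_sub_C]
  have hfin : finB (3 : k[X]) (bet d h) ≤ d + 1 := by
    unfold finB
    have s1 : ∑ P ∈ primes (bet d h), (if P ∣ (3 : k[X]) ∧ 3 ∣ Nat.card k ^ P.natDegree - 1 then 2
        else 1) * 3 ^ padicValNat 3 P.natDegree ≤ d := by
      have h1 : ∀ P ∈ primes (bet d h), (if P ∣ (3 : k[X]) ∧ 3 ∣ Nat.card k ^ P.natDegree - 1 then 2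
        else 1) * 3 ^ padicValNat 3 P.natDegree = 1 := by
        intro P hP
        obtain ⟨z, -, hPz⟩ := hp1 P hP
        have hPi := ((mem_primes hBne).1 hP).2.1
        rw [if_neg, one_mul, hPz, hdegP, cop3 h3d]
        rintro ⟨h5, -⟩
        rw [e3] at h5
        exact hPi.not_isUnit (isUnit_of_dvd_unit h5 (isUnit_C.2 (isUnit_iff_ne_zero.2 hk3)))
      rw [Finset.sum_congr rfl h1, Finset.sum_const, smul_eq_mul, mul_one]
      have hsub : primes (bet d h) ⊆
          (nthRootsFinset d (1 : k)).image (fun z => normalize (h - C z)) := by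
        intro P hP
        obtain ⟨z, hz1, hPz⟩ := hp1 P hP
        exact Finset.mem_image.2 ⟨z, hz1, hPz.symm⟩
      refine (Finset.card_le_card hsub).trans (Finset.card_image_le.trans ?_)
      rw [hω.card_nthRootsFinset]
    have s2 : ∑ P ∈ (primes (4 * (3 : k[X]) ^ 3 - 27 * bet d h)).filter
        (fun P => ¬ P ∣ bet d h ∧ 3 ∣ Nat.card k ^ P.natDegree - 1),
        3 ^ padicValNat 3 P.natDegree ≤ 1 := by
      have h1 : ∀ P ∈ (primes (4 * (3 : k[X]) ^ 3 - 27 * bet d h)).filter
          (fun P => ¬ P ∣ bet d h ∧ 3 ∣ Nat.card k ^ P.natDegree - 1), P = normalize h := by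
        intro P hP
        obtain ⟨hmon, hPi, hdv⟩ := (mem_primes hγne).1 (Finset.mem_filter.1 hP).1
        rw [hγ] at hdv
        have hnu : ¬ P ∣ C 108 := fun hd' => hPi.not_isUnit
          (isUnit_of_dvd_unit hd' (isUnit_C.2 (isUnit_iff_ne_zero.2 hk108)))
        rcases hPi.prime.dvd_or_dvd hdv with h1 | h1
        · exact absurd h1 hnu
        · have hass : Associated P h := hPi.associated_of_dvd hirr (hPi.prime.dvd_of_dvd_pow h1)
          rw [← hmon.normalize_eq_self]
          exact (normalize_eq_normalize_iff_associated).2 hass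
      have hsub : (primes (4 * (3 : k[X]) ^ 3 - 27 * bet d h)).filter
          (fun P => ¬ P ∣ bet d h ∧ 3 ∣ Nat.card k ^ P.natDegree - 1) ⊆ {normalize h} := by
        intro P hP
        exact Finset.mem_singleton.2 (h1 P hP)
      refine (Finset.sum_le_sum_of_subset hsub).trans ?_
      rw [Finset.sum_singleton, natDegree_eq_of_degree_eq (degree_normalize), cop3 h3d]
    exact Nat.add_le_add s1 s2
  omega

end Pool.Agent.TH958.T3
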